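import Mathlib
import Pool.Agent.X200.BlumMain

/-!
# A compact linearly ordered space without the Blumberg property (in ZFC)
-/

namespace Pool.Agent.Results.MP_184855_gt.CompactLotsNotBlumberg

open Set Topology Cardinal Pool.Agent.X200.Stat Pool.Agent.X200.BlumSpace

/-- The Blumberg property: for every function `f : X → ℝ` there is a dense set `D` such that the
restriction of `f` to `D` is continuous. -/
def HasBlumberg (X : Type*) [TopologicalSpace X] : Prop :=
  ∀ f : X → ℝ, ∃ D : Set X, Dense D ∧ Continuous (D.restrict f)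

theorem not_blumberg {Ω : Type} [LinearOrder Ω] [WellFoundedLT Ω] {S : Set Ω} (h : Good S)
    (r : Ω → ℝ) (hr : Function.Injective r) : ¬ HasBlumberg (Pt S) := by
  intro hB
  choose α hα using h.bounded
  obtain ⟨D, hD, hf⟩ := hB (fun x => r (α x))
  -- a countable basis of the line
  let b : Set (Set ℝ) := TopologicalSpace.countableBasis ℝ
  have hbc : b.Countable := TopologicalSpace.countable_countableBasis ℝ
  have hbne : b.Nonempty := by
    by_contra hne
    rw [not_nonempty_iff_eq_empty] at hne
    have := (TopologicalSpace.isBasis_countableBasis ℝ).sUnion_eq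
    rw [show TopologicalSpace.countableBasis ℝ = b from rfl, hne] at this
    simp at this
    exact empty_ne_univ this
  obtain ⟨J, hJ⟩ := hbc.exists_eq_range hbne
  have hJo : ∀ n, IsOpen (J n) := fun n =>
    (TopologicalSpace.isBasis_countableBasis ℝ).isOpen (by
      show J n ∈ b
      rw [hJ]; exact mem_range_self n)
  have hU : ∀ n, ∃ U : Set (Pt S), IsOpen U ∧ ∀ x ∈ D, (x ∈ U ↔ r (α x) ∈ J n) := by
    intro n
    obtain ⟨U, hU, hU'⟩ := isOpen_induced_iff.1 ((hJo n).preimage hf)
    refine ⟨U, hU, fun x hx => ?_⟩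
    have := Set.ext_iff.1 hU' ⟨x, hx⟩
    exact this
  choose U hUo hUD using hU
  obtain ⟨t, ht⟩ := decide_all h U hUo
  obtain ⟨V, hV, hVne, hVt⟩ := exists_open_in h t
  have hconst : ∀ x ∈ D, x ∈ V → ∀ y ∈ D, y ∈ V → r (α x) = r (α y) := by
    intro x hx hxV y hy hyV
    by_contra hne
    obtain ⟨W, hW, hxW, hWy⟩ := (TopologicalSpace.isBasis_countableBasis ℝ).exists_subset_of_mem_open
      (show r (α x) ∈ ({r (α y)}ᶜ : Set ℝ) from hne) isOpen_compl_singleton
    have hW' : W ∈ range J := by rw [← hJ]; exact hW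
    obtain ⟨n, rfl⟩ := hW'
    have hxU : x ∈ U n := (hUD n x hx).2 hxW
    rcases ht n with h1 | h1
    · have : r (α y) ∈ J n := (hUD n y hy).1 (h1 (hVt hyV))
      exact hWy this rfl
    · exact disjoint_left.1 h1 (hVt hxV) hxU
  obtain ⟨x, hxV, hxD⟩ := hD.inter_open_nonempty V hV hVne
  have hsub : D ∩ V ⊆ N (α x) := by
    rintro y ⟨hy, hyV⟩
    have h1 : α y = α x := hr (hconst y hy hyV x hxD hxV)
    rw [← h1]; exact hα y
  have hcl : V ⊆ closure (N (α x) : Set (Pt S)) := by
    have : V ⊆ closure (D ∩ V) := by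
      have := hD.open_subset_closure_inter hV
      rwa [inter_comm] at this
    exact this.trans (closure_mono hsub)
  have hint := N_nowhereDense h (α x)
  rw [IsNowhereDense] at hint
  obtain ⟨v, hv⟩ := hVne
  have : v ∈ interior (closure (N (α x) : Set (Pt S))) := interior_maximal hcl hV hv
  rw [hint] at this
  exact this

/-- There is a compact linearly ordered topological space without the Blumberg property. -/
theorem result : ∃ (X : Type) (_ : LinearOrder X) (_ : TopologicalSpace X),
    OrderTopology X ∧ CompactSpace X ∧ ¬ HasBlumberg X := by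
  let Ω : Type := (ℵ₁ : Cardinal.{0}).ord.ToType
  have hΩ : #Ω = ℵ₁ := by simp [Ω]
  have hom : IsOm1 Ω := by
    refine ⟨fun a => ?_, fun hc => ?_⟩
    · rw [← Cardinal.le_aleph0_iff_set_countable]
      have h1 : #(Iio a) < #Ω := Cardinal.mk_Iio_lt a (by rw [hΩ]; simp [Ω])
      rw [hΩ] at h1
      exact Cardinal.lt_aleph_one_iff.1 h1 
    · rw [← Cardinal.le_aleph0_iff_set_countable, mk_univ, hΩ] at hc
      exact absurd hc (not_le.2 aleph0_lt_aleph_one)
  obtain ⟨S, h1, h2⟩ := hom.exists_split
  have hr : Nonempty (Ω ↪ ℝ) := by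
    rw [← Cardinal.le_def, mk_real, hΩ]
    exact aleph_one_le_continuum
  obtain ⟨r⟩ := hr
  exact ⟨Pt S, inferInstance, inferInstance, inferInstance, inferInstance,
    not_blumberg ⟨hom, h1, h2⟩ r r.injective⟩

end Pool.Agent.Results.MP_184855_gt.CompactLotsNotBlumberg
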